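import Pool.Agent.Helper47.RFn.GoalsC

/-! # Project RFn, packet FRF: the frame formulas at the function level -/

set_option autoImplicit false
set_option linter.unusedSectionVars false

open Finset

namespace Pool.Agent.Helper37.RFn

open Pool.Agent.Helper47.RFn

section val

variable {n : ℕ} {𝒜 : Type} [CommRing 𝒜] [Algebra ℝ 𝒜]

/-- `f` has the values of the smooth function `h` -/
def Val (v : {x : EE n // x ≠ 0} → (𝒜 →ₐ[ℝ] ℝ)) (f : 𝒜) (h : EE n → ℝ) : Prop :=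
  Sm h ∧ ∀ x : {x : EE n // x ≠ 0}, v x f = h x

/-- the facts about the algebra of smooth functions that are used -/
structure Ctx (e : Ix n → Derivation ℝ 𝒜 𝒜) (n0 : Ix n → 𝒜)
    (v : {x : EE n // x ≠ 0} → (𝒜 →ₐ[ℝ] ℝ)) : Prop where
  C1 : Goal_C1
  ve : ∀ f (h : EE n → ℝ), Sm h → (∀ x, v x f = h x) → ∀ i x, v x (e i f) = ed i h x
  vn : ∀ i x, v x (n0 i) = nn i (x : EE n)

variable {e : Ix n → Derivation ℝ 𝒜 𝒜} {n0 : Ix n → 𝒜} {v : {x : EE n // x ≠ 0} → (𝒜 →ₐ[ℝ] ℝ)}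

section closure

variable (hc : Ctx e n0 v)

include hc

theorem Ctx.add {f g : 𝒜} {h k : EE n → ℝ} (h1 : Val v f h) (h2 : Val v g k) :
    Val v (f + g) (fun x => h x + k x) :=
  ⟨(hc.C1 n).2.1 h k h1.1 h2.1, fun x => by rw [map_add, h1.2, h2.2]⟩

theorem Ctx.sub {f g : 𝒜} {h k : EE n → ℝ} (h1 : Val v f h) (h2 : Val v g k) :
    Val v (f - g) (fun x => h x - k x) :=
  ⟨(hc.C1 n).2.2.1 h k h1.1 h2.1, fun x => by rw [map_sub, h1.2, h2.2]⟩

theorem Ctx.mul {f g : 𝒜} {h k : EE n → ℝ} (h1 : Val v f h) (h2 : Val v g k) :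
    Val v (f * g) (fun x => h x * k x) :=
  ⟨(hc.C1 n).2.2.2.1 h k h1.1 h2.1, fun x => by rw [map_mul, h1.2, h2.2]⟩

theorem Ctx.neg {f : 𝒜} {h : EE n → ℝ} (h1 : Val v f h) :
    Val v (-f) (fun x => - h x) :=
  ⟨(hc.C1 n).2.2.2.2.1 h h1.1, fun x => by rw [map_neg, h1.2]⟩

theorem Ctx.sum {ι : Type} [Fintype ι] {f : ι → 𝒜} {h : ι → EE n → ℝ} (h1 : ∀ i, Val v (f i) (h i)) :
    Val v (∑ i, f i) (fun x => ∑ i, h i x) :=
  ⟨(hc.C1 n).2.2.2.2.2.1 ι Finset.univ h fun i _ => (h1 i).1, fun x => by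
    rw [map_sum]; exact Finset.sum_congr rfl fun i _ => (h1 i).2 x⟩

theorem Ctx.const (c : ℝ) : Val v (algebraMap ℝ 𝒜 c) (fun _ => c) :=
  ⟨(hc.C1 n).1 c, fun x => by simp⟩

theorem Ctx.smul (c : ℝ) {f : 𝒜} {h : EE n → ℝ} (h1 : Val v f h) :
    Val v (c • f) (fun x => c * h x) := by
  have := hc.mul (hc.const c) h1
  rwa [← Algebra.smul_def] at this

theorem Ctx.kr (p : Prop) [Decidable p] : Val v (if p then (1 : 𝒜) else 0) (fun _ => if p then (1 : ℝ) else 0) := by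
  have := hc.const (if p then (1 : ℝ) else 0)
  by_cases hp : p
  · simpa [hp] using this
  · simpa [hp] using this

theorem Ctx.de (i : Ix n) {f : 𝒜} {h : EE n → ℝ} (h1 : Val v f h) : Val v (e i f) (ed i h) :=
  ⟨(hc.C1 n).2.2.2.2.2.2.2.2.1 h i h1.1, fun x => hc.ve f h h1.1 h1.2 i x⟩

theorem Ctx.rad (i : Ix n) : Val v (n0 i) (nn i) :=
  ⟨(hc.C1 n).2.2.2.2.2.2.2.2.2.2.2 i, fun x => hc.vn i x⟩

theorem Ctx.eval {f g : 𝒜} {h k : EE n → ℝ} (h1 : Val v f h) (h2 : Val v g k) (H : f = g) {x : EE n}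
    (hx : x ≠ 0) : h x = k x := by
  have e1 := h1.2 ⟨x, hx⟩
  have e2 := h2.2 ⟨x, hx⟩
  rw [H] at e1
  exact e1.symm.trans e2

end closure

/-- the metric matrix -/
noncomputable def gF (θ : MF n) (i j : Ix n) (x : EE n) : ℝ := ∑ a, θ x i a * θ x j a

/-- the inverse metric -/
noncomputable def giF (A : MF n) (i j : Ix n) (x : EE n) : ℝ := ∑ a, A x a i * A x a j

/-- Christoffel symbols in the frame `e` -/
noncomputable def KEf (A θ : MF n) (i j k : Ix n) (x : EE n) : ℝ :=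
  1 / 2 * ∑ m, giF A k m x * (ed i (gF θ j m) x + ed j (gF θ i m) x - ed m (gF θ i j) x)
    + (∑ m, giF A k m x * nn m x) * gF θ i j x - nn j x * (if i = k then 1 else 0)

/-- curvature in the frame `e` -/
noncomputable def REf (A θ : MF n) (i j k l : Ix n) (x : EE n) : ℝ :=
  ed i (KEf A θ j k l) x - ed j (KEf A θ i k l) x
    + ∑ m, (KEf A θ j k m x * KEf A θ i m l x - KEf A θ i k m x * KEf A θ j m l x)
    - (nn i x * KEf A θ j k l x - nn j x * KEf A θ i k l x)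

section frame

variable (hc : Ctx e n0 v) {A θ : MF n} {A' θ' : Ix n → Ix n → 𝒜}
  (hA : ∀ a i, Val v (A' a i) (fun x => A x a i)) (ht : ∀ i a, Val v (θ' i a) (fun x => θ x i a))

include hc hA

theorem val_Fd (a : Ix n) {f : 𝒜} {h : EE n → ℝ} (h1 : Val v f h) :
    Val v (FR.Fd e A' a f) (Fdc A a h) :=
  hc.sum fun i => hc.mul (hA a i) (hc.de i h1)

theorem val_nf (a : Ix n) : Val v (FR.nf n0 A' a) (nfc A a) :=
  hc.sum fun i => hc.mul (hA a i) (hc.rad i)

theorem val_gi (i j : Ix n) : Val v (FR.gi A' i j) (giF A i j) :=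
  hc.sum fun a => hc.mul (hA a i) (hA a j)

include ht

theorem val_C (a b c : Ix n) : Val v (FR.C e n0 A' θ' a b c) (Cc A θ a b c) :=
  hc.add (hc.sum fun j => hc.mul (hc.sub (val_Fd hc hA a (hA b j)) (val_Fd hc hA b (hA a j))) (ht j c))
    (hc.sub (hc.mul (val_nf hc hA a) (hc.kr (b = c))) (hc.mul (val_nf hc hA b) (hc.kr (a = c))))

theorem val_Gam (a b c : Ix n) : Val v (FR.Gam e n0 A' θ' a b c) (Gamc A θ a b c) :=
  hc.smul (1 / 2) (hc.add (hc.sub (val_C hc hA ht a b c) (val_C hc hA ht b c a)) (val_C hc hA ht c a b))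

theorem val_K (a b c d : Ix n) : Val v (FR.K e n0 A' θ' a b c d) (Kf A θ a b c d) :=
  hc.sub (hc.add (hc.sub (val_Fd hc hA a (val_Gam hc hA ht b c d)) (val_Fd hc hA b (val_Gam hc hA ht a c d)))
    (hc.sum fun f => hc.sub (hc.mul (val_Gam hc hA ht b c f) (val_Gam hc hA ht a f d))
      (hc.mul (val_Gam hc hA ht a c f) (val_Gam hc hA ht b f d))))
    (hc.sum fun f => hc.mul (val_C hc hA ht a b f) (val_Gam hc hA ht f c d))

theorem val_R (a b c d : Ix n) : Val v (FR.R e n0 A' θ' a b c d) (Rf A θ a b c d) :=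
  hc.neg (val_K hc hA ht a b c d)

omit hA in
theorem val_g (i j : Ix n) : Val v (FR.g θ' i j) (gF θ i j) :=
  hc.sum fun a => hc.mul (ht i a) (ht j a)

theorem val_KE (i j k : Ix n) : Val v (FR.KE e n0 A' θ' i j k) (KEf A θ i j k) :=
  hc.sub (hc.add (hc.smul (1 / 2) (hc.sum fun m => hc.mul (val_gi hc hA k m)
      (hc.sub (hc.add (hc.de i (val_g hc ht j m)) (hc.de j (val_g hc ht i m))) (hc.de m (val_g hc ht i j)))))
    (hc.mul (hc.sum fun m => hc.mul (val_gi hc hA k m) (hc.rad m)) (val_g hc ht i j)))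
    (hc.mul (hc.rad j) (hc.kr (i = k)))

theorem val_RE (i j k l : Ix n) : Val v (FR.RE e n0 A' θ' i j k l) (REf A θ i j k l) :=
  hc.sub (hc.add (hc.sub (hc.de i (val_KE hc hA ht j k l)) (hc.de j (val_KE hc hA ht i k l)))
    (hc.sum fun m => hc.sub (hc.mul (val_KE hc hA ht j k m) (val_KE hc hA ht i m l))
      (hc.mul (val_KE hc hA ht i k m) (val_KE hc hA ht j m l))))
    (hc.sub (hc.mul (hc.rad i) (val_KE hc hA ht j k l)) (hc.mul (hc.rad j) (val_KE hc hA ht i k l)))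

end frame

end val

section coord

variable {n : ℕ}

theorem nhds0 {x : EE n} (hx : x ≠ 0) : ({0}ᶜ : Set (EE n)) ∈ nhds x :=
  isOpen_compl_singleton.mem_nhds hx

theorem sm_diff {f : EE n → ℝ} (hf : Sm f) {x : EE n} (hx : x ≠ 0) : DifferentiableAt ℝ f x :=
  (hf.cd.contDiffAt (nhds0 hx)).differentiableAt (by simp)

theorem fd_norm (x : EE n) (hx : x ≠ 0) :
    HasFDerivAt (fun y : EE n => ‖y‖) ((‖x‖⁻¹ : ℝ) • innerSL ℝ x) x := by
  have h := (hasStrictFDerivAt_norm_sq x).hasFDerivAt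
  have hn : (‖x‖ : ℝ) ≠ 0 := norm_ne_zero_iff.2 hx
  have h1 := h.sqrt (by positivity)
  have e1 : (fun y : EE n => √(‖y‖ ^ 2)) = fun y => ‖y‖ := by
    funext y
    exact Real.sqrt_sq (norm_nonneg y)
  rw [e1] at h1
  refine h1.congr_fderiv ?_
  rw [Real.sqrt_sq (norm_nonneg x), ← Nat.cast_smul_eq_nsmul ℝ, smul_smul]
  congr 1
  field_simp
  norm_num

theorem fd_pow (m : ℕ) (x : EE n) (hx : x ≠ 0) :
    HasFDerivAt (fun y : EE n => (‖y‖ ^ (m + 1))⁻¹)
      ((-((m + 1 : ℕ) * (‖x‖ ^ (m + 3))⁻¹) : ℝ) • innerSL ℝ x) x := by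
  have hn : (‖x‖ : ℝ) ≠ 0 := norm_ne_zero_iff.2 hx
  have h1 := (fd_norm x hx).pow (m + 1)
  have h2 : (‖x‖ ^ (m + 1) : ℝ) ≠ 0 := pow_ne_zero _ hn
  have h3 := (hasDerivAt_inv h2).comp_hasFDerivAt x h1
  refine h3.congr_fderiv ?_
  ext y
  simp only [_root_.smul_apply, smul_eq_mul, Nat.cast_add, Nat.cast_one, nsmul_eq_mul,
    Nat.add_sub_cancel]
  field_simp
  ring

theorem inner_single (x : EE n) (i : Ix n) :
    inner ℝ x (EuclideanSpace.single i (1 : ℝ)) = x i := by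
  rw [EuclideanSpace.inner_single_right]
  simp

/-- derivative of a homogeneous function times a power of the norm -/
theorem pd_pow (m : ℕ) {f : EE n → ℝ} (hf : Sm f) (i : Ix n) {x : EE n} (hx : x ≠ 0) :
    pd i (fun y => (‖y‖ ^ (m + 1))⁻¹ * f y) x =
      (‖x‖ ^ (m + 2))⁻¹ * (ed i f x - (m + 1 : ℕ) * nn i x * f x) := by
  have hn : (‖x‖ : ℝ) ≠ 0 := norm_ne_zero_iff.2 hx
  have h := (fd_pow m x hx).mul (sm_diff hf hx).hasFDerivAt
  unfold pd
  rw [show (fun y : EE n => (‖y‖ ^ (m + 1))⁻¹ * f y) = (fun y : EE n => (‖y‖ ^ (m + 1))⁻¹) * f from rfl,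
    h.fderiv]
  simp only [_root_.add_apply, _root_.smul_apply, innerSL_apply_apply, inner_single, smul_eq_mul]
  unfold ed nn pd
  field_simp
  ring

variable {A θ : MF n}

theorem tA (hF : Frm A θ) (x : EE n) : θ x * A x = 1 := mul_eq_one_comm.1 (hF.inv x)

theorem gOf_apply (x : EE n) (i j : Ix n) : gOf θ x i j = gF θ i j x := by
  simp [gOf, gF, Matrix.mul_apply]

theorem ATA_apply (x : EE n) (i j : Ix n) : ((A x).transpose * A x) i j = giF A i j x := by
  simp [giF, Matrix.mul_apply]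

theorem g_mul (hF : Frm A θ) (x : EE n) : gOf θ x * ((A x).transpose * A x) = 1 := by
  unfold gOf
  calc θ x * (θ x).transpose * ((A x).transpose * A x)
      = θ x * ((A x) * (θ x)).transpose * A x := by
        rw [Matrix.transpose_mul]; simp only [Matrix.mul_assoc]
    _ = 1 := by rw [hF.inv x, Matrix.transpose_one, Matrix.mul_one, tA hF x]

theorem g_inv (hF : Frm A θ) (x : EE n) : (gOf θ x)⁻¹ = (A x).transpose * A x :=
  Matrix.inv_eq_right_inv (g_mul hF x)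

theorem cyl_inv (hF : Frm A θ) {x : EE n} (hx : x ≠ 0) (i j : Ix n) :
    (cyl (gOf θ) x)⁻¹ i j = ‖x‖ ^ 2 * giF A i j x := by
  have hn : (‖x‖ : ℝ) ≠ 0 := norm_ne_zero_iff.2 hx
  have h : (cyl (gOf θ) x)⁻¹ = ‖x‖ ^ 2 • ((A x).transpose * A x) := by
    apply Matrix.inv_eq_right_inv
    unfold cyl
    rw [Matrix.smul_mul, Matrix.mul_smul, smul_smul, g_mul hF x, inv_mul_cancel₀ (pow_ne_zero 2 hn), one_smul]
  rw [h, Matrix.smul_apply, ATA_apply, smul_eq_mul]

theorem cyl_apply (x : EE n) (i j : Ix n) : cyl (gOf θ) x i j = (‖x‖ ^ (1 + 1))⁻¹ * gF θ i j x := by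
  simp [cyl, gOf_apply]

theorem sm_gF (hC1 : Goal_C1) (hF : Frm A θ) (i j : Ix n) : Sm (gF θ i j) :=
  (hC1 n).2.2.2.2.2.1 _ Finset.univ _ fun a _ => (hC1 n).2.2.2.1 _ _ (hF.smt i a) (hF.smt j a)

theorem pd_cyl (hC1 : Goal_C1) (hF : Frm A θ) (i j k : Ix n) {x : EE n} (hx : x ≠ 0) :
    pd i (fun y => cyl (gOf θ) y j k) x =
      (‖x‖ ^ 3)⁻¹ * (ed i (gF θ j k) x - 2 * nn i x * gF θ j k x) := by
  have e1 : (fun y => cyl (gOf θ) y j k) = fun y => (‖y‖ ^ (1 + 1))⁻¹ * gF θ j k y := by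
    funext y
    exact cyl_apply y j k
  rw [e1, pd_pow 1 (sm_gF hC1 hF j k) i hx]
  norm_num

theorem gi_g (hF : Frm A θ) (x : EE n) (i j : Ix n) :
    ∑ m, giF A i m x * gF θ m j x = if i = j then 1 else 0 := by
  have h : ((A x).transpose * A x) * gOf θ x = 1 := mul_eq_one_comm.1 (g_mul hF x)
  have h2 := congrFun (congrFun h i) j
  rw [Matrix.mul_apply, Matrix.one_apply] at h2
  simpa [ATA_apply, gOf_apply] using h2

theorem g_symm (x : EE n) (i j : Ix n) : gF θ i j x = gF θ j i x := by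
  unfold gF
  exact Finset.sum_congr rfl fun a _ => mul_comm _ _

/-- the Christoffel symbols -/
theorem chr_eq (hC1 : Goal_C1) (hF : Frm A θ) (i j k : Ix n) {x : EE n} (hx : x ≠ 0) :
    Chr (cyl (gOf θ)) i j k x = ‖x‖⁻¹ * (KEf A θ i j k x - nn i x * (if j = k then 1 else 0)) := by
  have hn : (‖x‖ : ℝ) ≠ 0 := norm_ne_zero_iff.2 hx
  unfold Chr
  have e1 : ∀ l, (cyl (gOf θ) x)⁻¹ k l * (pd i (fun y => cyl (gOf θ) y j l) x + pd j (fun y => cyl (gOf θ) y i l) x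
      - pd l (fun y => cyl (gOf θ) y i j) x) =
      ‖x‖⁻¹ * (giF A k l x * (ed i (gF θ j l) x + ed j (gF θ i l) x - ed l (gF θ i j) x)
        - 2 * nn i x * (giF A k l x * gF θ l j x) - 2 * nn j x * (giF A k l x * gF θ l i x)
        + 2 * (giF A k l x * nn l x) * gF θ i j x) := by
    intro l
    rw [cyl_inv hF hx, pd_cyl hC1 hF _ _ _ hx, pd_cyl hC1 hF _ _ _ hx, pd_cyl hC1 hF _ _ _ hx,
      g_symm x l j, g_symm x l i]
    field_simp
    ring
  rw [Finset.sum_congr rfl fun l _ => e1 l, ← Finset.mul_sum, Finset.sum_add_distrib, Finset.sum_sub_distrib,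
    Finset.sum_sub_distrib, ← Finset.mul_sum, ← Finset.mul_sum, gi_g hF, gi_g hF, ← Finset.sum_mul, ← Finset.mul_sum]
  unfold KEf
  have e2 : (if k = j then (1 : ℝ) else 0) = if j = k then 1 else 0 := by simp [eq_comm]
  have e3 : (if k = i then (1 : ℝ) else 0) = if i = k then 1 else 0 := by simp [eq_comm]
  rw [e2, e3]
  ring

theorem pd_chr (hC1 : Goal_C1) (hC2 : Goal_C2) (hC3 : Goal_C3) (hF : Frm A θ)
    (hK : ∀ i j k, Sm (KEf A θ i j k)) (i j k l : Ix n) {x : EE n} (hx : x ≠ 0) :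
    pd i (Chr (cyl (gOf θ)) j k l) x = (‖x‖ ^ 2)⁻¹ *
      (ed i (KEf A θ j k l) x - (if k = l then 1 else 0) * ((if i = j then 1 else 0) - nn i x * nn j x)
        - nn i x * (KEf A θ j k l x - (if k = l then 1 else 0) * nn j x)) := by
  have hs : Sm (fun y : EE n => KEf A θ j k l y - (if k = l then 1 else 0) * nn j y) :=
    (hC1 n).2.2.1 _ _ (hK j k l)
      ((hC1 n).2.2.2.1 _ _ ((hC1 n).1 (if k = l then 1 else 0)) ((hC1 n).2.2.2.2.2.2.2.2.2.2.2 j))
  have e1 : Chr (cyl (gOf θ)) j k l =ᶠ[nhds x]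
      fun y => (‖y‖ ^ (0 + 1))⁻¹ * (KEf A θ j k l y - (if k = l then 1 else 0) * nn j y) := by
    filter_upwards [nhds0 hx] with y hy
    rw [chr_eq hC1 hF j k l hy]
    ring
  have e2 : pd i (Chr (cyl (gOf θ)) j k l) x =
      pd i (fun y => (‖y‖ ^ (0 + 1))⁻¹ * (KEf A θ j k l y - (if k = l then 1 else 0) * nn j y)) x := by
    unfold pd
    rw [e1.fderiv_eq]
  rw [e2, pd_pow 0 hs i hx, (hC2 n).2.2.1 i _ _ x (hK j k l)
      ((hC1 n).2.2.2.1 _ _ ((hC1 n).1 (if k = l then 1 else 0)) ((hC1 n).2.2.2.2.2.2.2.2.2.2.2 j)),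
    (hC2 n).2.2.2.2.2.1 i _ _ x ((hC1 n).2.2.2.2.2.2.2.2.2.2.2 j), (hC3 n).2.2.1 i j x hx]
  norm_num

theorem rup_eq (hC1 : Goal_C1) (hC2 : Goal_C2) (hC3 : Goal_C3) (hF : Frm A θ)
    (hK : ∀ i j k, Sm (KEf A θ i j k)) (i j k l : Ix n) {x : EE n} (hx : x ≠ 0) :
    Rup (cyl (gOf θ)) i j k l x = (‖x‖ ^ 2)⁻¹ * REf A θ i j k l x := by
  have hn : (‖x‖ : ℝ) ≠ 0 := norm_ne_zero_iff.2 hx
  unfold Rup
  rw [pd_chr hC1 hC2 hC3 hF hK i j k l hx, pd_chr hC1 hC2 hC3 hF hK j i k l hx]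
  have e1 : ∀ m, Chr (cyl (gOf θ)) j k m x * Chr (cyl (gOf θ)) i m l x
      - Chr (cyl (gOf θ)) i k m x * Chr (cyl (gOf θ)) j m l x =
      (‖x‖ ^ 2)⁻¹ * ((KEf A θ j k m x * KEf A θ i m l x - KEf A θ i k m x * KEf A θ j m l x)
        - nn i x * (KEf A θ j k m x * (if m = l then 1 else 0))
        + nn j x * (KEf A θ i k m x * (if m = l then 1 else 0))
        - nn j x * (KEf A θ i m l x * (if k = m then 1 else 0))
        + nn i x * (KEf A θ j m l x * (if k = m then 1 else 0))) := by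
    intro m
    rw [chr_eq hC1 hF j k m hx, chr_eq hC1 hF i m l hx, chr_eq hC1 hF i k m hx, chr_eq hC1 hF j m l hx]
    field_simp
    ring
  rw [Finset.sum_congr rfl fun m _ => e1 m, ← Finset.mul_sum, Finset.sum_add_distrib, Finset.sum_sub_distrib,
    Finset.sum_add_distrib, Finset.sum_sub_distrib, ← Finset.mul_sum, ← Finset.mul_sum, ← Finset.mul_sum,
    ← Finset.mul_sum]
  have e2 : ∀ f : Ix n → ℝ, ∑ m, f m * (if m = l then 1 else 0) = f l := fun f => by simp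
  have e3 : ∀ f : Ix n → ℝ, ∑ m, f m * (if k = m then 1 else 0) = f k := fun f => by simp
  rw [e2 fun m => KEf A θ j k m x, e2 fun m => KEf A θ i k m x, e3 fun m => KEf A θ i m l x,
    e3 fun m => KEf A θ j m l x]
  have e4 : (if j = i then (1 : ℝ) else 0) = if i = j then 1 else 0 := by simp [eq_comm]
  rw [e4]
  unfold REf
  ring

theorem g_posDef (hF : Frm A θ) (x : EE n) : (gOf θ x).PosDef := by
  unfold gOf
  rw [← Matrix.conjTranspose_eq_transpose_of_trivial]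
  apply Matrix.PosDef.mul_conjTranspose_self
  intro u w huw
  have h : ∀ z : Ix n → ℝ, Matrix.vecMul (Matrix.vecMul z (θ x)) (A x) = z := fun z => by
    rw [Matrix.vecMul_vecMul, tA hF x, Matrix.vecMul_one]
  rw [← h u, ← h w]
  exact congrArg (fun z => Matrix.vecMul z (A x)) huw

end coord

theorem goal_FRF (hC1 : Goal_C1) (hC2 : Goal_C2) (hC3 : Goal_C3) (hSMA : Goal_SMA) (hFRA : Goal_FRA)
    (hNUK : Goal_NUK) (hLCR : Goal_LCR) (hGEO : Goal_GEO) (hPAIR : Goal_PAIR) : Goal_FRF := by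
  intro n A θ hF
  obtain ⟨𝒜, cr, al, e, n0, v, -, hex, -, hve, hvn, hfh⟩ := hSMA n
  have hc : Ctx e n0 v := ⟨hC1, hve, hvn⟩
  choose A' hA' using fun a i => hex _ (hF.smA a i)
  choose θ' ht' using fun i a => hex _ (hF.smt i a)
  have hA : ∀ a i, Val v (A' a i) (fun x => A x a i) := fun a i => ⟨hF.smA a i, hA' a i⟩
  have ht : ∀ i a, Val v (θ' i a) (fun x => θ x i a) := fun i a => ⟨hF.smt i a, ht' i a⟩
  have H : FrameHyp e n0 A' θ' := hfh A θ hF A' θ' hA' ht'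
  obtain ⟨f1, -, f3, f4, f5, f6, -, f8, f9, f10⟩ := hFRA n 𝒜 e n0 A' θ' H
  have g1 := hNUK n 𝒜 e n0 A' θ' H
  obtain ⟨-, g3, g4⟩ := hGEO n 𝒜 e n0 A' θ' H
  obtain ⟨p1, -, -⟩ := hPAIR n 𝒜 e n0 A' θ' H
  have hK : ∀ i j k, Sm (KEf A θ i j k) := fun i j k => (val_KE hc hA ht i j k).1
  have lift : ∀ f : EE n → ℝ, Sm f → ∃ f', Val v f' f := fun f hf => by
    obtain ⟨f', h⟩ := hex f hf
    exact ⟨f', hf, h⟩
  refine ⟨⟨fun i j => ?_, g_posDef hF, fun x i => ?_⟩, g_inv hF, tA hF,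
    fun a b c => (val_C hc hA ht a b c).1, fun a b c => (val_Gam hc hA ht a b c).1,
    fun a b c d => (val_R hc hA ht a b c d).1, fun a => (val_nf hc hA a).1, ?_, ?_, ?_, ?_, ?_, ?_, ?_, ?_, ?_, ?_, ?_⟩
  · have e1 : (fun x => gOf θ x i j) = gF θ i j := by
      funext x
      exact gOf_apply x i j
    rw [e1]
    exact sm_gF hC1 hF i j
  · have e1 : ∀ j, gOf θ x i j * x j = ∑ a, θ x i a * (θ x j a * x j) := fun j => by
      rw [gOf_apply, gF, Finset.sum_mul]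
      exact Finset.sum_congr rfl fun a _ => by ring
    rw [Finset.sum_congr rfl fun j _ => e1 j, Finset.sum_comm]
    simp_rw [← Finset.mul_sum, ← hF.nA x, Finset.mul_sum]
    rw [Finset.sum_comm]
    have e2 : ∀ j, ∑ a, θ x i a * (A x a j * x j) = (if i = j then 1 else 0) * x j := fun j => by
      have h := congrFun (congrFun (tA hF x) i) j
      rw [Matrix.mul_apply, Matrix.one_apply] at h
      rw [← h, Finset.sum_mul]
      exact Finset.sum_congr rfl fun a _ => by ring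
    rw [Finset.sum_congr rfl fun j _ => e2 j]
    simp
  · intro a b f x hx hf
    obtain ⟨f', hf'⟩ := lift f hf
    exact hc.eval (hc.sub (val_Fd hc hA a (val_Fd hc hA b hf')) (val_Fd hc hA b (val_Fd hc hA a hf')))
      (hc.sum fun c => hc.mul (val_C hc hA ht a b c) (val_Fd hc hA c hf')) (f1 a b f') hx
  · intro a b c x hx
    exact hc.eval (val_C hc hA ht a b c) (hc.sub (val_Gam hc hA ht a b c) (val_Gam hc hA ht b a c)) (f4 a b c) hx
  · intro a b c x hx
    exact hc.eval (val_Gam hc hA ht a b c) (hc.neg (val_Gam hc hA ht a c b)) (f3 a b c) hx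
  · intro i f x hx hf
    obtain ⟨f', hf'⟩ := lift f hf
    exact hc.eval (hc.de i hf') (hc.sum fun a => hc.mul (ht i a) (val_Fd hc hA a hf')) (f5 i f') hx
  · intro a b x hx
    exact hc.eval (val_Fd hc hA a (val_nf hc hA b))
      (hc.sum fun c => hc.mul (val_Gam hc hA ht a b c) (val_nf hc hA c)) (f8 a b) hx
  · intro x hx
    have h := hc.eval (hc.sum fun a => hc.mul (val_nf hc hA a) (val_nf hc hA a)) (hc.const 1)
      (by rw [map_one, ← f6]; exact Finset.sum_congr rfl fun a _ => (sq _).symm) hx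
    rw [← h]
    exact Finset.sum_congr rfl fun a _ => sq _
  · intro x hx
    refine ⟨fun a b c d => ?_, fun a b c d => ?_, fun a b c d => ?_, fun a b c d => ?_⟩
    · exact hc.eval (val_R hc hA ht a b c d) (hc.neg (val_R hc hA ht b a c d)) (f9 a b c d) hx
    · exact hc.eval (val_R hc hA ht a b c d) (hc.neg (val_R hc hA ht a b d c)) (f10 a b c d) hx
    · exact hc.eval (val_R hc hA ht a b c d) (val_R hc hA ht c d a b) (p1 a b c d) hx
    · exact hc.eval (hc.add (hc.add (val_R hc hA ht a b c d) (val_R hc hA ht b c a d)) (val_R hc hA ht c a b d))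
        (hc.const 0) (by rw [map_zero]; exact g4 a b c d) hx
  · intro x hx a b c
    exact hc.eval (hc.sum fun d => hc.mul (val_R hc hA ht a b c d) (val_nf hc hA d)) (hc.const 0)
      (by rw [map_zero]; exact g1 a b c) hx
  · intro x hx a b c d
    have hn : (‖x‖ : ℝ) ≠ 0 := norm_ne_zero_iff.2 hx
    have h := hc.eval (hc.sum fun i => hc.sum fun j => hc.sum fun k => hc.sum fun l =>
      hc.mul (hc.mul (hc.mul (hc.mul (hA a i) (hA b j)) (hA c k)) (hA d l))
        (hc.sum fun m => hc.mul (val_RE hc hA ht i j k m) (val_g hc ht m l)))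
      (val_K hc hA ht a b c d) (g3 a b c d) hx
    rw [Rf, ← h, neg_mul_neg, Finset.mul_sum]
    refine Finset.sum_congr rfl fun i _ => ?_
    rw [Finset.mul_sum]
    refine Finset.sum_congr rfl fun j _ => ?_
    rw [Finset.mul_sum]
    refine Finset.sum_congr rfl fun k _ => ?_
    rw [Finset.mul_sum]
    refine Finset.sum_congr rfl fun l _ => ?_
    have e1 : Rm (cyl (gOf θ)) i j k l x = (‖x‖ ^ 4)⁻¹ * ∑ m, REf A θ i j k m x * gF θ m l x := by
      rw [Rm, Finset.mul_sum]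
      refine Finset.sum_congr rfl fun m _ => ?_
      rw [rup_eq hC1 hC2 hC3 hF hK i j k m hx, cyl_apply]
      field_simp
      ring
    rw [e1]
    ring
  · intro x a b
    have h : A x * (gOf θ x) * (A x).transpose = 1 := by
      unfold gOf
      rw [← Matrix.mul_assoc, hF.inv x, Matrix.one_mul, ← Matrix.transpose_mul, hF.inv x, Matrix.transpose_one]
    have h2 := congrFun (congrFun h a) b
    rw [Matrix.one_apply, Matrix.mul_apply] at h2
    rw [← h2, ip, Finset.sum_comm]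
    refine Finset.sum_congr rfl fun j _ => ?_
    rw [Matrix.mul_apply, Finset.sum_mul]
    exact Finset.sum_congr rfl fun i _ => by rw [Matrix.transpose_apply]; ring
  · intro u w x
    rw [g_inv hF x]
    unfold ggf Fdc
    have e1 : ∀ i j, ((A x).transpose * A x) i j * ed i u x * ed j w x =
        ∑ a, (A x a i * ed i u x) * (A x a j * ed j w x) := fun i j => by
      rw [ATA_apply, giF, Finset.sum_mul, Finset.sum_mul]
      exact Finset.sum_congr rfl fun a _ => by ring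
    simp_rw [e1, Finset.sum_mul_sum]
    rw [Finset.sum_comm]
    exact Finset.sum_congr rfl fun i _ => Finset.sum_comm

end Pool.Agent.Helper37.RFn
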